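import Pool.Agent.Q131.EL.Sign

/-!
# MP_3dbb84_gt, Q1: exact Lagrangian submanifolds of the cotangent bundle of the torus without folds

Q1 asks whether every closed exact Lagrangian submanifold `L` of the cotangent bundle of a closed
manifold `N` is the image of the zero section under a symplectic diffeomorphism.  The theorem gives
this for the torus `N = ℝⁿ/ℤⁿ`, in all dimensions, when every point `z` of `L` at which `L` is not
transverse to the fibre (a point of the caustic) is of one of two kinds: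

* the vertical tangent vectors at `z` form a line, and near `z` the projection of `L` to the base is
  injective (so the projection may have critical points, on an arbitrary closed set, but no folds;
  for example `q = p³` or `q = exp (-1/p²) p` in the direction of the line);
* `z` is a limit of points where `L` is transverse to the fibre, and near `z` the tangent spaces are
  semidefinite with a sign `ε = ±1` which may depend on `z`:
  `ε ⟪δp, δq⟫ ≥ -C ‖δq‖²` (any dimension of the space of vertical tangent vectors).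

In particular, an exact Lagrangian submanifold whose projection to the torus is a homeomorphism of
corank at most one is the image of the zero section.  There is no condition on pairs of different
points of `L`, and no auxiliary function on the cotangent bundle.

The method: at a point of the first kind the coordinates of the base orthogonal to the vertical line
and the momentum in its direction are local coordinates of `L`; injectivity makes the remaining
coordinate of the base strictly monotone in this momentum, with a locally constant direction, and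
the tangent spaces are semidefinite as in the second kind.  The sign is a locally constant function
on the caustic (a point with both signs which is a limit of transverse points is transverse), so
there is a smooth function `s` on the cotangent bundle which is `±1` near the caustic; for small
`t > 0` the symplectic diffeomorphism generated by `t s ‖p‖² / 2` makes `L` transverse to all fibres,
and an exact Lagrangian submanifold transverse to the fibres is the graph of an exact form.
-/

set_option autoImplicit false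

open Set Filter Topology Function
open scoped ContDiff RealInnerProductSpace

noncomputable section

namespace Pool.Agent.Results.MP_3dbb84_gt.LocallyInjectiveProjections

/-- `ℝⁿ` -/
abbrev E (n : ℕ) : Type := EuclideanSpace ℝ (Fin n)

/-- the integer vector `k` -/
def latt {n : ℕ} (k : Fin n → ℤ) : E n := WithLp.toLp 2 (fun i => (k i : ℝ))

/-- the symplectic form `dp ∧ dq` of `ℝⁿ × ℝⁿ`; the points and the vectors are pairs `(q, p)` -/
def om {n : ℕ} (a b : E n × E n) : ℝ := ⟪a.2, b.1⟫ - ⟪b.2, a.1⟫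

/-- `F : ℝⁿ → ℝⁿ × ℝⁿ` is an injective smooth immersion -/
def IsInjImmersion {n : ℕ} (F : E n → E n × E n) : Prop :=
  ContDiff ℝ ∞ F ∧ Injective F ∧ ∀ s v, fderiv ℝ F s v = 0 → v = 0

/-- `F` pulls back `dp ∧ dq` to zero -/
def IsIsotropic {n : ℕ} (F : E n → E n × E n) : Prop :=
  ∀ s v w, om (fderiv ℝ F s v) (fderiv ℝ F s w) = 0

/-- `Λ ⊆ ℝⁿ × ℝⁿ` is the preimage of a nonempty compact Lagrangian submanifold without boundary of
the cotangent bundle `ℝⁿ/ℤⁿ × ℝⁿ` of the torus: it is closed, invariant under the translations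
`(q, p) ↦ (q + k, p)`, bounded in `p`, and every point `z` of `Λ` is `F 0` for an injective smooth
immersion `F : ℝⁿ → ℝⁿ × ℝⁿ` which is open as a map to `Λ` and pulls back `dp ∧ dq` to zero. -/
structure IsLagrangianLift (n : ℕ) (Λ : Set (E n × E n)) : Prop where
  closed : IsClosed Λ
  nonempty : Λ.Nonempty
  per : ∀ z ∈ Λ, ∀ k : Fin n → ℤ, (z.1 + latt k, z.2) ∈ Λ
  bdd : ∃ R : ℝ, ∀ z ∈ Λ, ‖z.2‖ ≤ R
  par : ∀ z ∈ Λ, ∃ F : E n → E n × E n, F 0 = z ∧ IsInjImmersion F ∧ IsIsotropic F ∧
    ∀ V : Set (E n), IsOpen V → ∃ U, IsOpen U ∧ F '' V = Λ ∩ U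

/-- `γ` is a curve in `Λ` for the times near `0`, smooth at the time `0` -/
def IsCurveIn {n : ℕ} (Λ : Set (E n × E n)) (γ : ℝ → E n × E n) : Prop :=
  ContDiffAt ℝ ∞ γ 0 ∧ ∀ᶠ s in 𝓝 (0 : ℝ), γ s ∈ Λ

/-- the submanifold is exact: there is a function `g` on the quotient of `Λ` by the translations
with `dg = p dq`, that is, with the derivative `⟪p, δq⟫` along every smooth curve with the velocity
`(δq, δp)` -/
def IsExact {n : ℕ} (Λ : Set (E n × E n)) : Prop :=
  ∃ g : E n × E n → ℝ, ContinuousOn g Λ ∧ (∀ z ∈ Λ, ∀ k, g (z.1 + latt k, z.2) = g z) ∧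
    ∀ γ, IsCurveIn Λ γ → HasDerivAt (fun s => g (γ s)) ⟪(γ 0).2, (deriv γ 0).1⟫ 0

/-- `a` is a tangent vector of `Λ` at `z`: the velocity of a smooth curve in `Λ` -/
def IsTangent {n : ℕ} (Λ : Set (E n × E n)) (z a : E n × E n) : Prop :=
  ∃ γ, IsCurveIn Λ γ ∧ γ 0 = z ∧ deriv γ 0 = a

/-- at `z` the submanifold is transverse to the fibre: it has no nonzero vertical tangent vector;
the other points form the caustic -/
def IsTransverse {n : ℕ} (Λ : Set (E n × E n)) (z : E n × E n) : Prop :=
  ∀ a, IsTangent Λ z a → a.1 = 0 → a = 0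

/-- the vertical tangent vectors at `z` are the multiples of one vector -/
def IsCorankOne {n : ℕ} (Λ : Set (E n × E n)) (z : E n × E n) : Prop :=
  ∃ u : E n × E n, ∀ a, IsTangent Λ z a → a.1 = 0 → ∃ t : ℝ, a = t • u

/-- the projection `(q, p) ↦ q` is injective on `Λ` near `z` -/
def InjectiveNear {n : ℕ} (Λ : Set (E n × E n)) (z : E n × E n) : Prop :=
  ∃ U ∈ 𝓝 z, InjOn Prod.fst (Λ ∩ U)

/-- for a sign `ε` and a number `C`, all tangent vectors `(δq, δp)` of `Λ` at the points near `z`
satisfy `ε ⟪δp, δq⟫ ≥ -C ‖δq‖²` -/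
def SemidefiniteNear {n : ℕ} (Λ : Set (E n × E n)) (z : E n × E n) : Prop :=
  ∃ ε : ℝ, (ε = 1 ∨ ε = -1) ∧ ∃ U ∈ 𝓝 z, ∃ C : ℝ, ∀ w ∈ Λ, w ∈ U → ∀ a, IsTangent Λ w a →
    -C * ‖a.1‖ ^ 2 ≤ ε * ⟪a.2, a.1⟫

/-- `ψ` and its inverse are smooth -/
def IsSmoothDiffeo {n : ℕ} (ψ : E n × E n ≃ E n × E n) : Prop :=
  ContDiff ℝ ∞ ψ ∧ ContDiff ℝ ∞ ψ.symm

/-- `ψ` preserves the symplectic form -/
def PreservesForm {n : ℕ} (ψ : E n × E n ≃ E n × E n) : Prop :=
  ∀ z a b, om (fderiv ℝ ψ z a) (fderiv ℝ ψ z b) = om a b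

/-- Closed exact Lagrangian submanifolds of the cotangent bundle of the torus all of whose points
on the caustic are of corank one without fold, or semidefinite with some sign, are images of the
zero section under symplectic diffeomorphisms. -/
theorem result (n : ℕ) (Λ : Set (E n × E n)) (hΛ : IsLagrangianLift n Λ) (hex : IsExact Λ)
    (hc : ∀ z ∈ Λ, IsTransverse Λ z ∨ (IsCorankOne Λ z ∧ InjectiveNear Λ z) ∨
      (z ∈ closure {w | w ∈ Λ ∧ IsTransverse Λ w} ∧ SemidefiniteNear Λ z)) :
    ∃ ψ : E n × E n ≃ E n × E n, IsSmoothDiffeo ψ ∧ PreservesForm ψ ∧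
      (∀ z k, ψ (z.1 + latt k, z.2) = ((ψ z).1 + latt k, (ψ z).2)) ∧
      ψ '' {z | z.2 = 0} = Λ := by
  have hlag : Pool.Agent.Y522.ML.LagT n Λ :=
    ⟨hΛ.closed, hΛ.nonempty, hΛ.per, hΛ.bdd, fun z hz => by
      obtain ⟨F, f1, ⟨f2, f3, f4⟩, f5, f6⟩ := hΛ.par z hz
      exact ⟨F, f2, f1, f3, f6, f4, f5⟩⟩
  obtain ⟨g, g1, g2, g3⟩ := hex
  have hg : Pool.Agent.Q131.EL.Exact Λ g := ⟨g1, g2, fun γ h1 h2 => g3 γ ⟨h1, h2⟩⟩
  have htan : ∀ z a, Pool.Agent.Q131.EL.Tan Λ z a ↔ IsTangent Λ z a := by
    intro z a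
    constructor
    · rintro ⟨γ, h1, h2, h3, h4⟩
      exact ⟨γ, ⟨h1, h2⟩, h3, h4⟩
    · rintro ⟨γ, ⟨h1, h2⟩, h3, h4⟩
      exact ⟨γ, h1, h2, h3, h4⟩
  have htr : ∀ z, Pool.Agent.Q131.EL.Trans Λ z ↔ IsTransverse Λ z := by
    intro z
    unfold Pool.Agent.Q131.EL.Trans IsTransverse
    simp only [htan]
  obtain ⟨ψ, h1, h2, h3, h4, h5⟩ := Pool.Agent.Q131.EL.signs hlag hg (fun z hz => by
    by_cases hzt : IsTransverse Λ z
    · exact Or.inl ((htr z).2 hzt)
    right
    rcases hc z hz with h | ⟨⟨u, hu⟩, hinj⟩ | ⟨hcl, ε, hε, U, hU, C, hs⟩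
    · exact absurd h hzt
    · have hex' : ∃ a, Pool.Agent.Q131.EL.Tan Λ z a ∧ a.1 = 0 ∧ a ≠ 0 := by
        by_contra hcon
        push Not at hcon
        exact hzt ((htr z).1 fun a ha ha1 => hcon a ha ha1)
      obtain ⟨a, ha, ha1, ha0⟩ := hex'
      have ha2 : a.2 ≠ 0 := fun h => ha0 (Prod.ext ha1 h)
      have hn : ‖a.2‖ ≠ 0 := norm_ne_zero_iff.2 ha2
      have hw : ((0 : E n), ‖a.2‖⁻¹ • a.2) = ‖a.2‖⁻¹ • a := by
        refine Prod.ext ?_ rfl
        show (0 : E n) = ‖a.2‖⁻¹ • a.1
        rw [ha1, smul_zero]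
      obtain ⟨t₀, ht₀⟩ := hu a ((htan z a).1 ha) ha1
      have ht₀' : t₀ ≠ 0 := by
        rintro rfl
        rw [zero_smul] at ht₀
        exact ha0 ht₀
      refine Pool.Agent.Q131.EL.fold hlag hz (w := ‖a.2‖⁻¹ • a.2) ?_ ?_ ?_ hinj
      · rw [norm_smul, norm_inv, norm_norm, inv_mul_cancel₀ hn]
      · rw [hw]
        exact Pool.Agent.Q131.EL.Tan.smul hlag hz ha _
      · intro b hb hb1
        obtain ⟨t, ht⟩ := hu b ((htan z b).1 hb) hb1
        refine ⟨t * t₀⁻¹ * ‖a.2‖, ?_⟩
        rw [hw, smul_smul, mul_assoc, mul_inv_cancel₀ hn, mul_one, ht₀, smul_smul, mul_assoc,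
          inv_mul_cancel₀ ht₀', mul_one]
        exact ht
    · refine ⟨⟨ε, hε, U, hU, C, fun w hw hwU a ha => ?_⟩, fun N hN => ?_⟩
      · have := hs w hw hwU a ((htan w a).1 ha)
        rwa [real_inner_comm] at this
      · obtain ⟨y, hyN, hy, hyt⟩ := mem_closure_iff_nhds.1 hcl N hN
        exact ⟨y, hy, hyN, (htr y).2 hyt⟩)
  exact ⟨ψ, ⟨h1, h2⟩, h4, h3, h5⟩

end Pool.Agent.Results.MP_3dbb84_gt.LocallyInjectiveProjections
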