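import Pool.Agent.Q131.EL.Main

/-!
# MP_3dbb84_gt, Q1: exact Lagrangian submanifolds of the cotangent bundle of the torus with a
one-sided caustic

Q1 asks whether every closed exact Lagrangian submanifold `L` of the cotangent bundle of a closed
manifold `N` is the image of the zero section under a symplectic diffeomorphism.  The theorem gives
an infinitesimal condition for the torus `N = ℝⁿ/ℤⁿ`, in all dimensions.  It concerns only the
tangent spaces of `L` near the caustic (the points where `L` is not transverse to the fibre): there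
should be a smooth function `K` on the cotangent bundle such that, locally near every point of the
caustic, all tangent vectors `(δq, δp)` of `L` satisfy, for some constants `b > 0` and `C`,

* `⟪K_pp δp, δq⟫ ≥ -C ‖δq‖²`,
* `‖K_pp δp‖ + C ‖δq‖ ≥ b ‖δp‖` (automatic if the matrix `K_pp` is invertible).

For `K = ‖p‖² / 2` this says that the branches of `L` are locally (multivalued) derivatives of
semiconvex functions; `K = -‖p‖² / 2` gives semiconcave functions, and the sign (or the matrix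
`K_pp`) may be different at different parts of the caustic, also over the same point of the torus.
Nothing is assumed on pairs of different points of `L`, the fibres may meet `L` in infinitely many
points, and `L` need not be known to be diffeomorphic to the torus.

The method: for small `t > 0` the symplectic diffeomorphism generated by `t K` moves `L` to an exact
Lagrangian submanifold which is everywhere transverse to the fibres.  The projection of such a
submanifold is a covering; if it had two sheets, the difference of the two values of a primitive of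
`p dq` at the points of the sheets over a point of the torus would be maximal somewhere, and there
the two sheets would meet.  So it is the graph of an exact form.
-/

set_option autoImplicit false

open Set Filter Topology Function
open scoped ContDiff RealInnerProductSpace

noncomputable section

namespace Pool.Agent.Results.MP_3dbb84_gt.OneSidedCaustics

/-- `ℝⁿ` -/
abbrev E (n : ℕ) : Type := EuclideanSpace ℝ (Fin n)

/-- the integer vector `k` -/
def latt {n : ℕ} (k : Fin n → ℤ) : E n := WithLp.toLp 2 (fun i => (k i : ℝ))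

/-- the symplectic form `dp ∧ dq` of `ℝⁿ × ℝⁿ`; the points and the vectors are pairs `(q, p)` -/
def om {n : ℕ} (a b : E n × E n) : ℝ := ⟪a.2, b.1⟫ - ⟪b.2, a.1⟫

/-- `F : ℝⁿ → ℝⁿ × ℝⁿ` is an injective smooth immersion -/
def IsInjImmersion {n : ℕ} (F : E n → E n × E n) : Prop :=
  ContDiff ℝ ∞ F ∧ Injective F ∧ ∀ s v, fderiv ℝ F s v = 0 → v = 0

/-- `F` pulls back `dp ∧ dq` to zero -/
def IsIsotropic {n : ℕ} (F : E n → E n × E n) : Prop :=
  ∀ s v w, om (fderiv ℝ F s v) (fderiv ℝ F s w) = 0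

/-- `Λ ⊆ ℝⁿ × ℝⁿ` is the preimage of a nonempty compact Lagrangian submanifold without boundary of
the cotangent bundle `ℝⁿ/ℤⁿ × ℝⁿ` of the torus: it is closed, invariant under the translations
`(q, p) ↦ (q + k, p)`, bounded in `p`, and every point `z` of `Λ` is `F 0` for an injective smooth
immersion `F : ℝⁿ → ℝⁿ × ℝⁿ` which is open as a map to `Λ` and pulls back `dp ∧ dq` to zero. -/
structure IsLagrangianLift (n : ℕ) (Λ : Set (E n × E n)) : Prop where
  closed : IsClosed Λ
  nonempty : Λ.Nonempty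
  per : ∀ z ∈ Λ, ∀ k : Fin n → ℤ, (z.1 + latt k, z.2) ∈ Λ
  bdd : ∃ R : ℝ, ∀ z ∈ Λ, ‖z.2‖ ≤ R
  par : ∀ z ∈ Λ, ∃ F : E n → E n × E n, F 0 = z ∧ IsInjImmersion F ∧ IsIsotropic F ∧
    ∀ V : Set (E n), IsOpen V → ∃ U, IsOpen U ∧ F '' V = Λ ∩ U

/-- `γ` is a curve in `Λ` for the times near `0`, smooth at the time `0` -/
def IsCurveIn {n : ℕ} (Λ : Set (E n × E n)) (γ : ℝ → E n × E n) : Prop :=
  ContDiffAt ℝ ∞ γ 0 ∧ ∀ᶠ s in 𝓝 (0 : ℝ), γ s ∈ Λ

/-- the submanifold is exact: there is a function `g` on the quotient of `Λ` by the translations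
with `dg = p dq`, that is, with the derivative `⟪p, δq⟫` along every smooth curve with the velocity
`(δq, δp)` -/
def IsExact {n : ℕ} (Λ : Set (E n × E n)) : Prop :=
  ∃ g : E n × E n → ℝ, ContinuousOn g Λ ∧ (∀ z ∈ Λ, ∀ k, g (z.1 + latt k, z.2) = g z) ∧
    ∀ γ, IsCurveIn Λ γ → HasDerivAt (fun s => g (γ s)) ⟪(γ 0).2, (deriv γ 0).1⟫ 0

/-- `a` is a tangent vector of `Λ` at `z`: the velocity of a smooth curve in `Λ` -/
def IsTangent {n : ℕ} (Λ : Set (E n × E n)) (z a : E n × E n) : Prop :=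
  ∃ γ, IsCurveIn Λ γ ∧ γ 0 = z ∧ deriv γ 0 = a

/-- at `z` the submanifold is transverse to the fibre: it has no nonzero vertical tangent vector;
the other points form the caustic -/
def IsTransverse {n : ℕ} (Λ : Set (E n × E n)) (z : E n × E n) : Prop :=
  ∀ a, IsTangent Λ z a → a.1 = 0 → a = 0

/-- the derivative of `K` at `z` in the direction `u` of the fibre -/
def dp {n : ℕ} (K : E n × E n → ℝ) (u : E n) (z : E n × E n) : ℝ := fderiv ℝ K z (0, u)

/-- the second derivative `⟪K_pp u, v⟫` of `K` at `z` in the directions `u`, `v` of the fibre -/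
def Kpp {n : ℕ} (K : E n × E n → ℝ) (z : E n × E n) (u v : E n) : ℝ := dp (dp K v) u z

/-- the one-sided condition near `z`: for some `b > 0` and `C`, all tangent vectors `(δq, δp)` of
`Λ` at points near `z` satisfy `⟪K_pp δp, δq⟫ ≥ -C ‖δq‖²` and, for some `e` with `‖e‖ ≤ 1`,
`⟪K_pp δp, e⟫ + C ‖δq‖ ≥ b ‖δp‖` -/
def OneSidedNear {n : ℕ} (Λ : Set (E n × E n)) (K : E n × E n → ℝ) (z : E n × E n) : Prop :=
  ∃ U ∈ 𝓝 z, ∃ b C : ℝ, 0 < b ∧ ∀ w ∈ Λ, w ∈ U → ∀ a, IsTangent Λ w a →
    -C * ‖a.1‖ ^ 2 ≤ Kpp K w a.2 a.1 ∧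
    ∃ e : E n, ‖e‖ ≤ 1 ∧ b * ‖a.2‖ ≤ Kpp K w a.2 e + C * ‖a.1‖

/-- `ψ` and its inverse are smooth -/
def IsSmoothDiffeo {n : ℕ} (ψ : E n × E n ≃ E n × E n) : Prop :=
  ContDiff ℝ ∞ ψ ∧ ContDiff ℝ ∞ ψ.symm

/-- `ψ` preserves the symplectic form -/
def PreservesForm {n : ℕ} (ψ : E n × E n ≃ E n × E n) : Prop :=
  ∀ z a b, om (fderiv ℝ ψ z a) (fderiv ℝ ψ z b) = om a b

theorem kpp_eq {n : ℕ} {K : E n × E n → ℝ} (hK : ContDiff ℝ ∞ K) (z : E n × E n) (u v : E n) :
    Pool.Agent.Q131.EL.Hpp K z u v = Kpp K z u v := by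
  have hD : ContDiff ℝ ∞ (fderiv ℝ K) := hK.fderiv_right (by simp)
  have h2 : HasFDerivAt (fderiv ℝ K) (fderiv ℝ (fderiv ℝ K) z) z :=
    (hD.differentiable (by simp)).differentiableAt.hasFDerivAt
  have h3 : HasFDerivAt (fun y => fderiv ℝ K y (0, v)) ((fderiv ℝ (fderiv ℝ K) z).flip (0, v))
      z := by
    have := h2.clm_apply (hasFDerivAt_const ((0 : E n), v) z)
    simpa using this
  show _ = fderiv ℝ (fun y => fderiv ℝ K y (0, v)) z (0, u)
  rw [h3.fderiv]
  rfl

/-- Closed exact Lagrangian submanifolds of the cotangent bundle of the torus which satisfy an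
infinitesimal one-sided condition near the caustic are images of the zero section under symplectic
diffeomorphisms. -/
theorem result (n : ℕ) (Λ : Set (E n × E n)) (hΛ : IsLagrangianLift n Λ) (hex : IsExact Λ)
    (K : E n × E n → ℝ) (hK : ContDiff ℝ ∞ K) (hKp : ∀ z k, K (z.1 + latt k, z.2) = K z)
    (hc : ∀ z ∈ Λ, IsTransverse Λ z ∨ OneSidedNear Λ K z) :
    ∃ ψ : E n × E n ≃ E n × E n, IsSmoothDiffeo ψ ∧ PreservesForm ψ ∧
      (∀ z k, ψ (z.1 + latt k, z.2) = ((ψ z).1 + latt k, (ψ z).2)) ∧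
      ψ '' {z | z.2 = 0} = Λ := by
  have hlag : Pool.Agent.Y522.ML.LagT n Λ :=
    ⟨hΛ.closed, hΛ.nonempty, hΛ.per, hΛ.bdd, fun z hz => by
      obtain ⟨F, f1, ⟨f2, f3, f4⟩, f5, f6⟩ := hΛ.par z hz
      exact ⟨F, f2, f1, f3, f6, f4, f5⟩⟩
  obtain ⟨g, g1, g2, g3⟩ := hex
  have hg : Pool.Agent.Q131.EL.Exact Λ g := ⟨g1, g2, fun γ h1 h2 => g3 γ ⟨h1, h2⟩⟩
  have htan : ∀ z a, Pool.Agent.Q131.EL.Tan Λ z a → IsTangent Λ z a := by
    rintro z a ⟨γ, h1, h2, h3, h4⟩
    exact ⟨γ, ⟨h1, h2⟩, h3, h4⟩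
  obtain ⟨b, C, hb, hC, hs⟩ := Pool.Agent.Q131.EL.uniform hlag hKp (fun z hz => by
    rcases hc z hz with h | ⟨U, hU, b, C, hb, h⟩
    · exact Pool.Agent.Q131.EL.side_of_transverse hlag hK hz fun a ha => h a (htan z a ha)
    · refine ⟨U, hU, b, C, hb, fun w hw hwU a ha => ?_⟩
      have h2 := h w hw hwU a (htan w a ha)
      simp only [kpp_eq hK]
      exact h2)
  obtain ⟨ψ, h1, h2, h3, h4, h5⟩ := Pool.Agent.Q131.EL.criterion hlag hg K hK hKp hb hC hs
  exact ⟨ψ, ⟨h1, h2⟩, h4, h3, h5⟩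

end Pool.Agent.Results.MP_3dbb84_gt.OneSidedCaustics
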